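import Pool.Agent.R201.RN.Asm
import Pool.Agent.R201.RN.SD1P
import Pool.Agent.R201.RN.SWP
import Pool.Agent.R201.RN.SA1P
import Pool.Agent.R201.RN.SExtP
import Pool.Agent.R201.RN.SProdP
import Pool.Agent.R201.RN.SConjP
import Pool.Agent.R201.RN.SA23P
import Pool.Agent.R201.RN.STelP
import Pool.Agent.R201.RN.SGSP
import Pool.Agent.R201.RN.SActP
import Pool.Agent.R201.RN.SQDP
import Pool.Agent.R201.RN.SDensP
import Pool.Agent.R201.RN.STopP
import Pool.Agent.R201.RN.SBaireP
import Pool.Agent.R201.RN.SHallP
import Pool.Agent.R201.RN.SAmenP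

/-! # A countable amenable group whose generic action on `L₁[0,1]` admits no invariant strictly
convex renorming (MP_af7e7c_an, Q1)

There is a countable locally finite (hence amenable) group `G` such that the complement of `S_G`
is comeager, and `S_G` is not comeager, both in the space of all actions of `G` on `L₁[0,1]` by
linear isometries and in the space of actions by positive linear isometries. -/

set_option autoImplicit false

namespace Pool.Agent.Results.MP_af7e7c_an.GenericNoRenorming

open Pool.Agent.R201.RN

theorem result.{u} : ∃ (G : Type) (_ : Group G), Countable G ∧ LocFin G ∧ Amenable.{u} G ∧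
    ∀ pos : Prop, (SG pos G)ᶜ ∈ residual (Act pos G) ∧ SG pos G ∉ residual (Act pos G) := by
  have hW : SW := sW sD1
  have hA1 : SA1 := sA1 sD1
  have hC : SConj := sConj sExt sProd
  have hA2 : SA2 := sA2 hA1 hW hC
  have hA3 : SA3 := sA3 hA1 hW hC
  have hQ : SQD := sQD hA1 hA2 hW sProd sTel
  have hD : SDens := sDens hQ hA3 hW sProd sGS (sAct sExt)
  exact main hD sTop sBaire sObs sFn sHall sAmen

end Pool.Agent.Results.MP_af7e7c_an.GenericNoRenorming
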